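import Mathlib
import Pool.Agent.LibMSB.Core

set_option autoImplicit false

namespace Pool.Agent.Results.MP_d417b4_co.BridgelessDeletion

open Finset Pool.Agent.LibMST Pool.Agent.LibMSB

/-- The number of subtrees of `G` with exactly `k` vertices: a subtree is a subgraph (not
necessarily induced) that is a tree. -/
noncomputable def subtreeCount {V : Type*} (G : SimpleGraph V) (k : ℕ) : ℕ :=
  Nat.card {H : G.Subgraph // H.coe.IsTree ∧ Nat.card H.verts = k}

/-- The mean subtree order of `G`: the sum of `k * s_k(G)` over `1 ≤ k ≤ |V|`, divided by the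
sum of `s_k(G)` over `1 ≤ k ≤ |V|`, where `s_k(G)` is the number of subtrees with `k` vertices. -/
noncomputable def meanSubtreeOrder {V : Type*} [Fintype V] (G : SimpleGraph V) : ℚ :=
  (∑ k ∈ Finset.Icc 1 (Fintype.card V), (k : ℚ) * (subtreeCount G k : ℚ)) /
    (∑ k ∈ Finset.Icc 1 (Fintype.card V), (subtreeCount G k : ℚ))

/-- The variance of the order of a uniformly random subtree of `G`: the mean of the squares of
the orders minus the square of the mean. -/
noncomputable def varSubtreeOrder {V : Type*} [Fintype V] (G : SimpleGraph V) : ℚ :=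
  (∑ k ∈ Finset.Icc 1 (Fintype.card V), (k : ℚ) ^ 2 * (subtreeCount G k : ℚ)) /
    (∑ k ∈ Finset.Icc 1 (Fintype.card V), (subtreeCount G k : ℚ)) - meanSubtreeOrder G ^ 2

/-- The standard deviation of the order of a uniformly random subtree of `G`. -/
noncomputable def sdSubtreeOrder {V : Type*} [Fintype V] (G : SimpleGraph V) : ℝ :=
  Real.sqrt (varSubtreeOrder G : ℝ)

/-- The number of bridges of `G`: edges whose deletion leaves a graph that is not connected. -/
noncomputable def bridgeCount {V : Type*} (G : SimpleGraph V) : ℕ :=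
  Nat.card {e : Sym2 V // e ∈ G.edgeSet ∧ ¬ (G.deleteEdges {e}).Connected}

section aux

variable {V : Type*} [Fintype V] [DecidableEq V]

private theorem count_eq (G : SimpleGraph V) (E : Finset (Sym2 V))
    (hE : ∀ e, e ∈ E ↔ e ∈ G.edgeSet) :
    (∑ k ∈ Finset.Icc 1 (Fintype.card V), (subtreeCount G k : ℚ)) = cntN E := by
  classical
  unfold subtreeCount cntN
  simp only [card_subtrees G E hE]
  rw [← sum_count E]
  push_cast
  rfl

private theorem mean_eq (G : SimpleGraph V) (E : Finset (Sym2 V))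
    (hE : ∀ e, e ∈ E ↔ e ∈ G.edgeSet) :
    meanSubtreeOrder G = cntA E / cntN E := by
  classical
  unfold meanSubtreeOrder
  rw [count_eq G E hE]
  congr 1
  unfold subtreeCount cntA ord
  simp only [card_subtrees G E hE]
  have h := sum_order E
  have h2 : ((∑ k ∈ Finset.Icc 1 (Fintype.card V),
      k * ((TP E).filter (fun p => p.1.card = k)).card : ℕ) : ℚ) =
      ((∑ p ∈ TP E, p.1.card : ℕ) : ℚ) := by rw [h]
  push_cast at h2
  exact h2

private theorem sq_eq (G : SimpleGraph V) (E : Finset (Sym2 V))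
    (hE : ∀ e, e ∈ E ↔ e ∈ G.edgeSet) :
    (∑ k ∈ Finset.Icc 1 (Fintype.card V), (k : ℚ) ^ 2 * (subtreeCount G k : ℚ)) = cntQ E := by
  classical
  unfold subtreeCount cntQ ord
  simp only [card_subtrees G E hE]
  rw [← Finset.sum_fiberwise_of_maps_to (g := fun p : Finset V × Finset (Sym2 V) => p.1.card)
    (s := TP E) (t := Finset.Icc 1 (Fintype.card V)) (fun p hp => card_mem_Icc hp)]
  apply Finset.sum_congr rfl
  intro k _
  rw [Finset.sum_congr rfl (g := fun _ => (k : ℚ) ^ 2), Finset.sum_const, nsmul_eq_mul, mul_comm]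
  intro p hp
  rw [(mem_filter.mp hp).2]

private theorem var_eq [Nonempty V] (G : SimpleGraph V) (E : Finset (Sym2 V))
    (hE : ∀ e, e ∈ E ↔ e ∈ G.edgeSet) :
    cntN E ^ 2 * varSubtreeOrder G = cntN E * cntQ E - cntA E ^ 2 := by
  have hN := cntN_pos E
  unfold varSubtreeOrder
  rw [count_eq G E hE, mean_eq G E hE, sq_eq G E hE]
  field_simp

omit [Fintype V] in
private theorem erase_spec (G : SimpleGraph V) (E : Finset (Sym2 V))
    (hE : ∀ e, e ∈ E ↔ e ∈ G.edgeSet) (e : Sym2 V) :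
    ∀ a, a ∈ E.erase e ↔ a ∈ (G.deleteEdges {e}).edgeSet := by
  intro a
  rw [mem_erase, SimpleGraph.edgeSet_deleteEdges, Set.mem_sdiff, Set.mem_singleton_iff, hE a,
    and_comm]

private theorem diff_eq [Nonempty V] (G : SimpleGraph V) (E : Finset (Sym2 V))
    (hE : ∀ e, e ∈ E ↔ e ∈ G.edgeSet) (e : Sym2 V) :
    meanSubtreeOrder G - meanSubtreeOrder (G.deleteEdges {e}) =
      cov E e / (cntN E * cntN (E.erase e)) := by
  rw [mean_eq G E hE, mean_eq _ _ (erase_spec G E hE e), mean_sub]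

private theorem main (G : SimpleGraph V) (hG : G.Connected) (hn : 2 ≤ Fintype.card V) :
    0 < sdSubtreeOrder G ∧ meanSubtreeOrder G < (Nat.card G.edgeSet : ℚ) + 1 ∧
      ((bridgeCount G : ℝ) < 2 * sdSubtreeOrder G →
        ∃ e ∈ G.edgeSet, (G.deleteEdges {e}).Connected ∧
          (meanSubtreeOrder (G.deleteEdges {e}) : ℝ) ≤ (meanSubtreeOrder G : ℝ) -
            sdSubtreeOrder G * (sdSubtreeOrder G - (bridgeCount G : ℝ) / 2) /
              ((Nat.card G.edgeSet : ℝ) + 1 - (meanSubtreeOrder G : ℝ))) := by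
  classical
  have : Nonempty V := hG.nonempty
  have : Nontrivial V := Fintype.one_lt_card_iff_nontrivial.mp (by omega)
  set E : Finset (Sym2 V) := univ.filter (fun e => e ∈ G.edgeSet) with hEdef
  have hE : ∀ e, e ∈ E ↔ e ∈ G.edgeSet := by
    intro e
    rw [hEdef, mem_filter]
    simp
  have hEc : Nat.card G.edgeSet = E.card := by
    apply Nat.subtype_card
    intro e
    exact hE e
  set B : Finset (Sym2 V) := E.filter (fun e => ¬ (G.deleteEdges {e}).Connected) with hB
  set F : Finset (Sym2 V) := E.filter (fun e => (G.deleteEdges {e}).Connected) with hF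
  have hBc : bridgeCount G = B.card := by
    unfold bridgeCount
    apply Nat.subtype_card
    intro e
    rw [hB, mem_filter, hE]
  obtain ⟨a, b, hab⟩ := exists_pair_ne V
  obtain ⟨u, v, huv⟩ : ∃ u v, G.Adj u v := by
    obtain ⟨p⟩ := hG.preconnected a b
    cases p with
    | nil => exact absurd rfl hab
    | cons h _ => exact ⟨_, _, h⟩
  have huE : s(u, v) ∈ E := (hE _).mpr huv
  have hN := cntN_pos E
  have hv := var_eq G E hE
  have hvp := var_pos huv.ne huE
  have hN2 : 0 < cntN E ^ 2 := by positivity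
  have hvar : 0 < varSubtreeOrder G := by
    rw [← hv] at hvp
    exact (mul_pos_iff_of_pos_left hN2).mp hvp
  have hm := mean_eq G E hE
  -- the weights
  have hw : ∑ e ∈ E, cntN (E.erase e) = cntN E * ((E.card : ℚ) + 1 - meanSubtreeOrder G) := by
    have h1 : ∀ e ∈ E, cntN (E.erase e) = cntN E - cntNe E e := fun e _ => cntN_erase E e
    rw [Finset.sum_congr rfl h1, Finset.sum_sub_distrib, sum_cntNe, hm, Finset.sum_const,
      nsmul_eq_mul]
    field_simp
    ring
  have hwpos : 0 < ∑ e ∈ E, cntN (E.erase e) :=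
    Finset.sum_pos (fun e _ => cntN_pos _) ⟨_, huE⟩
  have hden : 0 < (E.card : ℚ) + 1 - meanSubtreeOrder G := by
    rw [hw] at hwpos
    exact (mul_pos_iff_of_pos_left hN).mp hwpos
  have hvarR : (0 : ℝ) < (varSubtreeOrder G : ℝ) := by exact_mod_cast hvar
  have hsd : 0 < sdSubtreeOrder G := Real.sqrt_pos.mpr hvarR
  have hsd2 : sdSubtreeOrder G ^ 2 = (varSubtreeOrder G : ℝ) := Real.sq_sqrt hvarR.le
  refine ⟨hsd, ?_, ?_⟩
  · rw [hEc]
    linarith
  intro hb
  rw [hBc] at hb ⊢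
  rw [hEc]
  set σ : ℝ := sdSubtreeOrder G with hσ
  set n : ℝ := (cntN E : ℝ) with hn'
  have hnpos : 0 < n := by rw [hn']; exact_mod_cast hN
  have hdenR : 0 < (E.card : ℝ) + 1 - (meanSubtreeOrder G : ℝ) := by exact_mod_cast hden
  -- the sum over the bridges
  have hsq : ((∑ e ∈ B, cov E e : ℚ) : ℝ) ^ 2 ≤ (n ^ 2 * σ * ((B.card : ℝ) / 2)) ^ 2 := by
    have h1 := sum_cov_sq_le E B
    rw [← hv] at h1
    have h2 : ((∑ e ∈ B, cov E e : ℚ) : ℝ) ^ 2 ≤
        (n ^ 2 * (varSubtreeOrder G : ℝ)) * (n ^ 2 * (B.card : ℝ) ^ 2 / 4) := by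
      rw [hn']
      exact_mod_cast h1
    rw [← hsd2] at h2
    calc ((∑ e ∈ B, cov E e : ℚ) : ℝ) ^ 2
        ≤ (n ^ 2 * σ ^ 2) * (n ^ 2 * (B.card : ℝ) ^ 2 / 4) := h2
      _ = (n ^ 2 * σ * ((B.card : ℝ) / 2)) ^ 2 := by ring
  have hBle : ((∑ e ∈ B, cov E e : ℚ) : ℝ) ≤ n ^ 2 * σ * ((B.card : ℝ) / 2) := by
    have h0 : 0 ≤ n ^ 2 * σ * ((B.card : ℝ) / 2) := by positivity
    exact (abs_le_of_sq_le_sq' hsq h0).2
  have hsplit : ((∑ e ∈ F, cov E e : ℚ) : ℝ) + ((∑ e ∈ B, cov E e : ℚ) : ℝ) = n ^ 2 * σ ^ 2 := by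
    have h3 : ∑ e ∈ F, cov E e + ∑ e ∈ B, cov E e = ∑ e ∈ E, cov E e := by
      rw [hB, hF]
      exact Finset.sum_filter_add_sum_filter_not E _ _
    rw [sum_cov, ← hv] at h3
    rw [hsd2, hn']
    exact_mod_cast h3
  have hFge : n ^ 2 * (σ * (σ - (B.card : ℝ) / 2)) ≤ ((∑ e ∈ F, cov E e : ℚ) : ℝ) := by
    linarith
  have hpos : 0 < σ * (σ - (B.card : ℝ) / 2) := by
    apply mul_pos hsd
    linarith
  set δ : ℝ := σ * (σ - (B.card : ℝ) / 2) / ((E.card : ℝ) + 1 - (meanSubtreeOrder G : ℝ)) with hδ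
  have hδpos : 0 < δ := div_pos hpos hdenR
  have hFne : F.Nonempty := by
    rw [Finset.nonempty_iff_ne_empty]
    intro h
    rw [h] at hFge
    simp only [Finset.sum_empty, Rat.cast_zero] at hFge
    have : 0 < n ^ 2 * (σ * (σ - (B.card : ℝ) / 2)) := by positivity
    linarith
  by_contra hcon
  push Not at hcon
  have h1 : ∀ e ∈ F, ((cov E e : ℚ) : ℝ) < δ * n * ((cntN (E.erase e) : ℚ) : ℝ) := by
    intro e he
    rw [hF, mem_filter] at he
    have h2 := hcon e ((hE e).mp he.1) he.2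
    have h3 := diff_eq G E hE e
    have h3' : (meanSubtreeOrder G : ℝ) - (meanSubtreeOrder (G.deleteEdges {e}) : ℝ) =
        ((cov E e : ℚ) : ℝ) / (n * ((cntN (E.erase e) : ℚ) : ℝ)) := by
      rw [hn']
      exact_mod_cast h3
    have h4 : 0 < ((cntN (E.erase e) : ℚ) : ℝ) := by exact_mod_cast cntN_pos (E.erase e)
    have h5 : ((cov E e : ℚ) : ℝ) / (n * ((cntN (E.erase e) : ℚ) : ℝ)) < δ := by
      rw [← h3']
      linarith
    rw [div_lt_iff₀ (by positivity)] at h5
    linarith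
  have h6 : ((∑ e ∈ F, cov E e : ℚ) : ℝ) < δ * n * ((∑ e ∈ F, cntN (E.erase e) : ℚ) : ℝ) := by
    push_cast
    rw [Finset.mul_sum]
    exact Finset.sum_lt_sum_of_nonempty hFne h1
  have h7 : ((∑ e ∈ F, cntN (E.erase e) : ℚ) : ℝ) ≤
      n * ((E.card : ℝ) + 1 - (meanSubtreeOrder G : ℝ)) := by
    have h8 : ∑ e ∈ F, cntN (E.erase e) ≤ ∑ e ∈ E, cntN (E.erase e) :=
      Finset.sum_le_sum_of_subset_of_nonneg (Finset.filter_subset _ _)
        (fun e _ _ => (cntN_pos _).le)
    rw [hw] at h8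
    rw [hn']
    exact_mod_cast h8
  have h9 : δ * n * ((∑ e ∈ F, cntN (E.erase e) : ℚ) : ℝ) ≤
      δ * n * (n * ((E.card : ℝ) + 1 - (meanSubtreeOrder G : ℝ))) :=
    mul_le_mul_of_nonneg_left h7 (by positivity)
  have h10 : δ * n * (n * ((E.card : ℝ) + 1 - (meanSubtreeOrder G : ℝ))) =
      n ^ 2 * (σ * (σ - (B.card : ℝ) / 2)) := by
    rw [hδ]
    field_simp
  rw [h10] at h9
  linarith

end aux

/-- Let `G` be a connected graph with at least two vertices, with `b` bridges, let `μ` be its mean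
subtree order and `σ` the standard deviation of the order of a uniformly random subtree. Then
`σ > 0`, `μ < |E| + 1`, and if `b < 2 σ` (for example if `G` has no bridge), then some edge `e`
has `G ∖ e` connected and `μ(G ∖ e) ≤ μ - σ (σ - b / 2) / (|E| + 1 - μ)`, so
`μ(G ∖ e) < μ(G)`. -/
theorem result {V : Type*} [Fintype V] (G : SimpleGraph V) (hG : G.Connected)
    (hn : 2 ≤ Fintype.card V) :
    0 < sdSubtreeOrder G ∧ meanSubtreeOrder G < (Nat.card G.edgeSet : ℚ) + 1 ∧
      ((bridgeCount G : ℝ) < 2 * sdSubtreeOrder G →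
        ∃ e ∈ G.edgeSet, (G.deleteEdges {e}).Connected ∧
          (meanSubtreeOrder (G.deleteEdges {e}) : ℝ) ≤ (meanSubtreeOrder G : ℝ) -
            sdSubtreeOrder G * (sdSubtreeOrder G - (bridgeCount G : ℝ) / 2) /
              ((Nat.card G.edgeSet : ℝ) + 1 - (meanSubtreeOrder G : ℝ))) := by
  classical
  exact main G hG hn

end Pool.Agent.Results.MP_d417b4_co.BridgelessDeletion
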