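import Mathlib
import Pool.Agent.LibMSB.Core
import Pool.Agent.LibOC52.L1
import Pool.Agent.LibOC52.Z1
import Pool.Agent.LibOM4.Loc
import Pool.Agent.LibMC91.R13
import Pool.Agent.LibMB68.U
import Pool.Agent.LibMB68.B11
import Pool.Agent.LibMB68.B12
import Pool.Agent.LibMC91.R2
import Pool.Agent.LibMX91.B
import Pool.Agent.LibMX91.C
import Pool.Agent.LibMB68.B14

set_option autoImplicit false

namespace Pool.Agent.Results.MP_d417b4_co.CostCriterion

open Finset Pool.Agent.LibMST Pool.Agent.LibMSB Pool.Agent.LibOC52 Pool.Agent.LibMC91 Pool.Agent.LibOM4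
  Pool.Agent.LibMB68 Pool.Agent.LibMX91

/-- The number of subtrees of `G` with exactly `k` vertices: a subtree is a subgraph (not
necessarily induced) that is a tree. -/
noncomputable def subtreeCount {V : Type*} (G : SimpleGraph V) (k : ℕ) : ℕ :=
  Nat.card {H : G.Subgraph // H.coe.IsTree ∧ Nat.card H.verts = k}

/-- The mean subtree order of `G`: the sum of `k * s_k(G)` over `1 ≤ k ≤ |V|`, divided by the
sum of `s_k(G)` over `1 ≤ k ≤ |V|`, where `s_k(G)` is the number of subtrees with `k` vertices. -/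
noncomputable def meanSubtreeOrder {V : Type*} [Fintype V] (G : SimpleGraph V) : ℚ :=
  (∑ k ∈ Finset.Icc 1 (Fintype.card V), (k : ℚ) * (subtreeCount G k : ℚ)) /
    (∑ k ∈ Finset.Icc 1 (Fintype.card V), (subtreeCount G k : ℚ))

/-- The vertex set `C` has at least three elements, and the induced subgraph on `C` is connected
after the deletion of any one of its vertices (the induced subgraph is 2-connected). -/
def TwoConnected {V : Type*} (G : SimpleGraph V) (C : Finset V) : Prop :=
  3 ≤ C.card ∧ ∀ h ∈ C, (G.induce {v | v ∈ C ∧ v ≠ h}).Connected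

/-- `C` is the vertex set of a block of `G` with at least three vertices: a maximal 2-connected
set. -/
def IsBlock {V : Type*} (G : SimpleGraph V) (C : Finset V) : Prop :=
  TwoConnected G C ∧ ∀ C' : Finset V, TwoConnected G C' → C ⊆ C' → C' = C

/-- The graph formed by the edges `e` of `G` such that `G ∖ e` is connected (for connected `G`:
the edges which are not bridges). -/
def core {V : Type*} (G : SimpleGraph V) : SimpleGraph V :=
  SimpleGraph.fromEdgeSet {e | e ∈ G.edgeSet ∧ (G.deleteEdges {e}).Connected}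

/-- `C` is the vertex set of a core of `G`: of a component, with at least one edge, of the graph
of the edges which are not bridges. -/
def IsCore {V : Type*} (G : SimpleGraph V) (C : Finset V) : Prop :=
  ∃ u ∈ (core G).support, ∀ v, v ∈ C ↔ (core G).Reachable u v

/-- The graph `G` without the edges inside `C`. -/
def outside {V : Type*} (G : SimpleGraph V) (C : Finset V) : SimpleGraph V :=
  G.deleteEdges {e | ∀ v ∈ e, v ∈ C}

/-- The number of subtrees of `outside G C` which contain `h` and have exactly `k` vertices. -/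
noncomputable def localCount {V : Type*} (G : SimpleGraph V) (C : Finset V) (h : V) (k : ℕ) : ℕ :=
  Nat.card {H : (outside G C).Subgraph // H.coe.IsTree ∧ h ∈ H.verts ∧ Nat.card H.verts = k}

/-- The local mean at `h`: the mean order of the subtrees of `G` which contain `h` and use no edge
inside `C`. For `h` in `C` it is `1` if `h` has no neighbour outside `C`. -/
noncomputable def localMean {V : Type*} [Fintype V] (G : SimpleGraph V) (C : Finset V) (h : V) : ℚ :=
  (∑ k ∈ Finset.Icc 1 (Fintype.card V), (k : ℚ) * (localCount G C h k : ℚ)) /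
    (∑ k ∈ Finset.Icc 1 (Fintype.card V), (localCount G C h k : ℚ))

/-- The number of subtrees of `G` which contain `h` and use no edge inside `C`. -/
noncomputable def localNumber {V : Type*} [Fintype V] (G : SimpleGraph V) (C : Finset V) (h : V) : ℚ :=
  ∑ k ∈ Finset.Icc 1 (Fintype.card V), (localCount G C h k : ℚ)

/-- The number of neighbours of `h` in `C`. -/
noncomputable def degreeIn {V : Type*} (G : SimpleGraph V) (C : Finset V) (h : V) : ℕ :=
  Nat.card {u // u ∈ C ∧ G.Adj h u}

/-- The number of neighbours of `h` in `C` if the induced subgraph on `C` without `h` is connected,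
and `2` otherwise. -/
noncomputable def weight {V : Type*} (G : SimpleGraph V) (C : Finset V) (h : V) : ℕ := by
  classical
  exact if (G.induce {v | v ∈ C ∧ v ≠ h}).Connected then degreeIn G C h else 2

/-- The cost of the vertex `h` of `C`: the excess of its local mean over `M`, divided by the number
of subtrees through `h` without edges inside `C` and by `weight G C h`. -/
noncomputable def cost {V : Type*} [Fintype V] (G : SimpleGraph V) (C : Finset V) (M : ℚ) (h : V) : ℚ :=
  (localMean G C h - M) / (localNumber G C h * (weight G C h : ℚ))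

/-- The set `C` is good: there is a number `M ≥ 1`, at most the local mean of each vertex of `C`,
such that the sum of the costs of the vertices of `C` is at most `2 M`, or `|C|` times each cost is
at most `4 M`, or there are at most `|C| - 1 + 4 M` edges of `G` inside `C`. -/
def Good {V : Type*} [Fintype V] (G : SimpleGraph V) (C : Finset V) : Prop :=
  ∃ M : ℚ, 1 ≤ M ∧ (∀ h ∈ C, M ≤ localMean G C h) ∧
    (∑ h ∈ C, cost G C M h ≤ 2 * M ∨
      (∀ h ∈ C, (C.card : ℚ) * cost G C M h ≤ 4 * M) ∨
      (Nat.card {e // e ∈ G.edgeSet ∧ ∀ v ∈ e, v ∈ C} : ℚ) ≤ C.card - 1 + 4 * M)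

section aux

variable {V : Type*} [Fintype V] [DecidableEq V]

private theorem count_eq (G : SimpleGraph V) (E : Finset (Sym2 V))
    (hE : ∀ e, e ∈ E ↔ e ∈ G.edgeSet) :
    (∑ k ∈ Finset.Icc 1 (Fintype.card V), (subtreeCount G k : ℚ)) = cntN E := by
  classical
  unfold subtreeCount cntN
  simp only [card_subtrees G E hE]
  rw [← sum_count E]
  push_cast
  rfl

private theorem mean_eq (G : SimpleGraph V) (E : Finset (Sym2 V))
    (hE : ∀ e, e ∈ E ↔ e ∈ G.edgeSet) :
    meanSubtreeOrder G = cntA E / cntN E := by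
  classical
  unfold meanSubtreeOrder
  rw [count_eq G E hE]
  congr 1
  unfold subtreeCount cntA ord
  simp only [card_subtrees G E hE]
  have h := sum_order E
  have h2 : ((∑ k ∈ Finset.Icc 1 (Fintype.card V),
      k * ((TP E).filter (fun p => p.1.card = k)).card : ℕ) : ℚ) =
      ((∑ p ∈ TP E, p.1.card : ℕ) : ℚ) := by rw [h]
  push_cast at h2
  exact h2

omit [Fintype V] in
private theorem erase_spec (G : SimpleGraph V) (E : Finset (Sym2 V))
    (hE : ∀ e, e ∈ E ↔ e ∈ G.edgeSet) (e : Sym2 V) :
    ∀ a, a ∈ E.erase e ↔ a ∈ (G.deleteEdges {e}).edgeSet := by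
  intro a
  rw [mem_erase, SimpleGraph.edgeSet_deleteEdges, Set.mem_sdiff, Set.mem_singleton_iff, hE a,
    and_comm]

private theorem diff_eq [Nonempty V] (G : SimpleGraph V) (E : Finset (Sym2 V))
    (hE : ∀ e, e ∈ E ↔ e ∈ G.edgeSet) (e : Sym2 V) :
    meanSubtreeOrder G - meanSubtreeOrder (G.deleteEdges {e}) =
      cov E e / (cntN E * cntN (E.erase e)) := by
  rw [mean_eq G E hE, mean_eq _ _ (erase_spec G E hE e), mean_sub]

omit [Fintype V] in
private theorem cn_of_reach {A : Finset (Sym2 V)} {C : Finset V} (hA : ∀ e ∈ A, ∀ x ∈ e, x ∈ C)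
    (hr : ∀ u ∈ C, ∀ v ∈ C, (SimpleGraph.fromEdgeSet (A : Set (Sym2 V))).Reachable u v) :
    Cn A C := by
  intro U hU hne hneC
  obtain ⟨u, hu⟩ := hne
  obtain ⟨v, hv, hvU⟩ : ∃ v ∈ C, v ∉ U := by
    by_contra hcon
    push Not at hcon
    exact hneC (Finset.Subset.antisymm hU hcon)
  obtain ⟨p⟩ := hr u (hU hu) v hv
  obtain ⟨d, _, h1, h2⟩ := p.exists_boundary_dart (U : Set V) (by exact_mod_cast hu)
    (by exact_mod_cast hvU)
  have h3 := d.adj
  rw [SimpleGraph.fromEdgeSet_adj] at h3
  have h4 : s(d.fst, d.snd) ∈ A := by exact_mod_cast h3.1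
  exact ⟨d.fst, by exact_mod_cast h1, d.snd, hA _ h4 _ (Sym2.mem_mk_right _ _),
    by exact_mod_cast h2, h4⟩

private theorem conn_iff [Nonempty V] (H : SimpleGraph V) (A : Finset (Sym2 V))
    (hA : ∀ e, e ∈ A ↔ e ∈ H.edgeSet) : Cn A univ ↔ H.Connected := by
  classical
  constructor
  · intro hc
    rw [SimpleGraph.connected_iff]
    refine ⟨?_, inferInstance⟩
    intro u v
    by_contra hcon
    obtain ⟨x, hx, y, _, hy, hxy⟩ := hc (univ.filter (fun w => H.Reachable u w))
      (filter_subset _ _) ⟨u, by rw [mem_filter]; exact ⟨mem_univ _, SimpleGraph.Reachable.refl u⟩⟩ (by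
        intro h1
        have h2 : v ∈ univ.filter (fun w => H.Reachable u w) := by
          rw [h1]
          exact mem_univ v
        rw [mem_filter] at h2
        exact hcon h2.2)
    rw [mem_filter] at hx hy
    apply hy
    refine ⟨mem_univ _, hx.2.trans ?_⟩
    rw [hA] at hxy
    exact SimpleGraph.Adj.reachable (H.mem_edgeSet.mp hxy)
  · intro hc
    apply cn_of_reach
    · intro _ _ x _
      exact mem_univ x
    · intro u _ v _
      have hco : SimpleGraph.fromEdgeSet (A : Set (Sym2 V)) = H := by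
        have : (A : Set (Sym2 V)) = H.edgeSet := by
          ext e
          rw [mem_coe, hA]
        rw [this, SimpleGraph.fromEdgeSet_edgeSet]
      rw [hco]
      exact hc.preconnected u v

/-- translation of 2-connectedness -/
private theorem two_iff (G : SimpleGraph V) (E : Finset (Sym2 V))
    (hE : ∀ e, e ∈ E ↔ e ∈ G.edgeSet) (C : Finset V) : TwoConn E C ↔ TwoConnected G C := by
  classical
  unfold TwoConn TwoConnected
  refine and_congr_right fun h3 => ?_
  refine forall₂_congr fun h hh => ?_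
  constructor
  · intro hc
    rw [SimpleGraph.connected_iff]
    constructor
    · rintro ⟨a, ha1, ha2⟩ ⟨b, hb1, hb2⟩
      by_contra hcon
      obtain ⟨U, hU⟩ : ∃ U : Finset V, U = C.filter (fun w => ∃ hw : w ∈ C ∧ w ≠ h,
        (G.induce {v | v ∈ C ∧ v ≠ h}).Reachable ⟨a, ha1, ha2⟩ ⟨w, hw⟩) := ⟨_, rfl⟩
      have hmU : ∀ w, w ∈ U ↔ ∃ hw : w ∈ C ∧ w ≠ h,
          (G.induce {v | v ∈ C ∧ v ≠ h}).Reachable ⟨a, ha1, ha2⟩ ⟨w, hw⟩ := by
        intro w
        rw [hU, mem_filter]
        constructor
        · exact fun h => h.2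
        · exact fun h => ⟨h.1.1, h⟩
      obtain ⟨x, hx, y, hy, hyU, hxy⟩ := hc U (by
          intro w hw
          obtain ⟨hw1, _⟩ := (hmU w).mp hw
          exact mem_erase.mpr ⟨hw1.2, hw1.1⟩)
        ⟨a, (hmU a).mpr ⟨⟨ha1, ha2⟩, SimpleGraph.Reachable.refl _⟩⟩ (by
          intro h1
          have hbU : b ∈ U := by
            rw [h1]
            exact mem_erase.mpr ⟨hb2, hb1⟩
          obtain ⟨_, h2⟩ := (hmU b).mp hbU
          exact hcon h2)
      obtain ⟨hx1, hx2⟩ := (hmU x).mp hx
      rw [mem_erase] at hy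
      apply hyU
      refine (hmU y).mpr ⟨⟨hy.2, hy.1⟩, hx2.trans ?_⟩
      rw [mem_filter, mem_ein] at hxy
      apply SimpleGraph.Adj.reachable
      show G.Adj x y
      exact G.mem_edgeSet.mp ((hE _).mp hxy.1.1)
    · have : 1 < C.card := by omega
      obtain ⟨w, hw, hwh⟩ := exists_mem_ne this h
      exact ⟨⟨w, hw, hwh⟩⟩
  · intro hc
    apply cn_of_reach
    · intro e he x hx
      rw [mem_filter, mem_ein] at he
      rw [mem_erase]
      refine ⟨?_, he.1.2 x hx⟩
      rintro rfl
      exact he.2 hx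
    · intro a ha b hb
      rw [mem_erase] at ha hb
      have h1 := hc.preconnected ⟨a, ha.2, ha.1⟩ ⟨b, hb.2, hb.1⟩
      refine h1.map (f := ⟨Subtype.val, ?_⟩)
      rintro ⟨x, hx1, hx2⟩ ⟨y, hy1, hy2⟩ hxy
      have hxy' : G.Adj x y := hxy
      rw [SimpleGraph.fromEdgeSet_adj, mem_coe, mem_filter, mem_ein]
      refine ⟨⟨⟨(hE _).mpr (G.mem_edgeSet.mpr hxy'), ?_⟩, ?_⟩, hxy'.ne⟩
      · intro z hz
        rw [Sym2.mem_iff] at hz
        rcases hz with rfl | rfl
        · exact hx1
        · exact hy1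
      · rw [Sym2.mem_iff]
        rintro (h3 | h3)
        · exact hx2 h3.symm
        · exact hy2 h3.symm

private theorem wh_one (E : Finset (Sym2 V)) (C : Finset V) (v : V) : 1 ≤ wh E C v := by
  unfold wh nr
  apply card_pos.mpr
  refine ⟨({v}, ∅), ?_⟩
  rw [mem_rt]
  exact ⟨⟨⟨empty_subset _, v, Grow.base⟩, subset_univ _⟩, mem_singleton_self v⟩

private theorem cov_MX {E : Finset (Sym2 V)} {C : Finset V} (hl : ∀ e ∈ E, ¬ e.IsDiag)
    (hE : Cn E univ) (hC : Piece E C) (hlo : Lo E Cᶜ) {D : V → ℕ} {M : ℚ} (hM1 : 1 ≤ M)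
    (hM : ∀ v ∈ C, M ≤ (sh E C v : ℚ) / (wh E C v : ℚ))
    (hD : ∀ v ∈ C, Nx C (ein E C) v (D v) ∧ 1 ≤ D v)
    (hleaf : ∀ T ∈ tc C (ein E C), ∑ v ∈ C.filter (fun v => Lf T v),
      ((sh E C v : ℚ) / (wh E C v : ℚ) - M) / ((wh E C v : ℚ) * D v) ≤ 2 * M) :
    ∃ e ∈ ein E C, 0 < cov E e := by
  classical
  refine cov_posX hl hE hC hlo (m := M - 1) (by linarith) (fun v hv => by
    have := hM v hv
    linarith) (D := D) (fun v hv _ => hD v hv) ?_
  intro T hT
  have h1 : ∀ v, (sh E C v : ℚ) / (wh E C v : ℚ) - 1 - (M - 1) = (sh E C v : ℚ) / (wh E C v : ℚ) - M :=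
    fun v => by ring
  simp only [h1]
  refine le_trans ?_ ((hleaf T hT).trans (le_of_eq (by ring)))
  apply sum_le_sum_of_subset_of_nonneg
  · intro v hv
    rw [mem_filter] at hv ⊢
    exact ⟨hv.1, hv.2.2⟩
  · intro v hv _
    rw [mem_filter] at hv
    have := hM v hv.1
    apply div_nonneg (by linarith)
    positivity

private theorem cov_MS {E : Finset (Sym2 V)} {C : Finset V} (hl : ∀ e ∈ E, ¬ e.IsDiag)
    (hE : Cn E univ) (hC : Piece E C) (hlo : Lo E Cᶜ) {D : V → ℕ} {M : ℚ} (hM1 : 1 ≤ M)
    (hM : ∀ v ∈ C, M ≤ (sh E C v : ℚ) / (wh E C v : ℚ))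
    (hD : ∀ v ∈ C, Nx C (ein E C) v (D v) ∧ 1 ≤ D v)
    (hcost : ∀ v ∈ C, (C.card : ℚ) *
      (((sh E C v : ℚ) / (wh E C v : ℚ) - M) / ((wh E C v : ℚ) * D v)) ≤ 4 * M) :
    ∃ e ∈ ein E C, 0 < cov E e := by
  classical
  refine cov_posXs hl hE hC hlo (m := M - 1) (by linarith) (fun v hv => by
    have := hM v hv
    linarith) (D := D) (fun v hv _ => hD v hv) ?_
  intro v hv
  have h1 : (sh E C v : ℚ) / (wh E C v : ℚ) - 1 - (M - 1) = (sh E C v : ℚ) / (wh E C v : ℚ) - M := by
    ring
  rw [h1]
  refine (hcost v hv).trans (le_of_eq (by ring))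

private theorem main (G : SimpleGraph V) (hG : G.Connected)
    (hne : ∃ e ∈ G.edgeSet, (G.deleteEdges {e}).Connected)
    (h : ∀ K : Finset V, IsCore G K → Good G K ∨ ∀ C ⊆ K, IsBlock G C → Good G C) :
    ∃ e ∈ G.edgeSet, (G.deleteEdges {e}).Connected ∧
      meanSubtreeOrder (G.deleteEdges {e}) < meanSubtreeOrder G := by
  classical
  have : Nonempty V := hG.nonempty
  obtain ⟨E, hE'⟩ : ∃ E : Finset (Sym2 V), E = univ.filter (fun e => e ∈ G.edgeSet) := ⟨_, rfl⟩
  have hE : ∀ e, e ∈ E ↔ e ∈ G.edgeSet := by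
    intro e
    rw [hE', mem_filter]
    simp
  have hnb : ∀ e, e ∈ nb E ↔ e ∈ G.edgeSet ∧ (G.deleteEdges {e}).Connected := by
    intro e
    rw [mem_nb, hE, conn_iff (G.deleteEdges {e}) (E.erase e) (erase_spec G E hE e)]
  have hl : ∀ e ∈ E, ¬ e.IsDiag := by
    intro e he
    exact SimpleGraph.not_isDiag_of_mem_edgeSet G ((hE e).mp he)
  have hcn : Cn E univ := (conn_iff G E hE).mpr hG
  have hnbne : (nb E).Nonempty := by
    obtain ⟨e, he, hc⟩ := hne
    exact ⟨e, (hnb e).mpr ⟨he, hc⟩⟩
  have hadj : ∀ u v, (core G).Adj u v ↔ s(u, v) ∈ nb E := by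
    intro u v
    unfold core
    rw [SimpleGraph.fromEdgeSet_adj, Set.mem_setOf_eq, ← hnb]
    constructor
    · exact fun h => h.1
    · intro h
      refine ⟨h, fun huv => hl _ (mem_nb.mp h).1 ?_⟩
      rw [huv]
      exact Sym2.mk_isDiag_iff.mpr rfl
  obtain ⟨C, hC, hlo, hgood⟩ : ∃ C, Piece E C ∧ Lo E Cᶜ ∧ Good G C := by
    obtain ⟨K, hK, hloK, B, hBK, hB, hloB⟩ := exists_core_block hl hcn hnbne
    obtain ⟨hroot, _, hcK, hbK⟩ := core_root hl hcn hK
    have hcoreK : IsCore G K := by
      obtain ⟨a, b, haK, hbK', hab⟩ : ∃ a b, a ∈ K ∧ b ∈ K ∧ s(a, b) ∈ nb E := by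
        obtain ⟨e, he, heK⟩ := hK.ne
        induction e using Sym2.ind with
        | _ a b => exact ⟨a, b, heK a (Sym2.mem_mk_left a b), heK b (Sym2.mem_mk_right a b), he⟩
      refine ⟨a, ?_, ?_⟩
      · rw [SimpleGraph.mem_support]
        exact ⟨b, (hadj a b).mpr hab⟩
      · intro v
        constructor
        · intro hv
          by_contra hcon
          obtain ⟨x, hx, y, hyK, hy, hxy⟩ := hK.conn (K.filter (fun w => (core G).Reachable a w))
            (filter_subset _ _) ⟨a, by rw [mem_filter]; exact ⟨haK, SimpleGraph.Reachable.refl a⟩⟩ (by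
              intro h1
              rw [← h1, mem_filter] at hv
              exact hcon hv.2)
          rw [mem_filter] at hx hy
          apply hy
          refine ⟨hyK, hx.2.trans ?_⟩
          exact SimpleGraph.Adj.reachable ((hadj x y).mpr (mem_ein.mp hxy).1)
        · rintro ⟨p⟩
          by_contra hcon
          obtain ⟨d, _, h1, h2⟩ := p.exists_boundary_dart (K : Set V) (by exact_mod_cast haK)
            (by exact_mod_cast hcon)
          have h3 := (hadj _ _).mp d.adj
          exact h2 (by exact_mod_cast hK.closed _ (by exact_mod_cast h1) _ h3)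
    rcases h K hcoreK with h | h
    · refine ⟨K, ⟨?_, hcK, hbK, hroot⟩, hloK, h⟩
      obtain ⟨e, he, heK⟩ := hK.ne
      exact ⟨e, mem_ein.mpr ⟨(mem_nb.mp he).1, heK⟩⟩
    · refine ⟨B, hB.1, hloB, h B hBK ?_⟩
      refine ⟨(two_iff G E hE B).mp (block_twoConn hl hcn hB), ?_⟩
      intro C' hC' hs
      exact (piece_max hl hB.1 ((two_iff G E hE C').mpr hC') hs).symm
  have hcC := hC.conn
  have hbC := hC.two
  obtain ⟨EC, hEC'⟩ : ∃ EC : Finset (Sym2 V), EC = ein E C := ⟨_, rfl⟩
  have hECC : ∀ e ∈ EC, ∀ x ∈ e, x ∈ C := by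
    intro e he
    rw [hEC', mem_ein] at he
    exact he.2
  have hECnb : ∀ e ∈ EC, e ∈ nb E := by
    intro e he
    rw [hEC'] at he
    exact piece_nb hcn hC e he
  have hmemEC : ∀ e, e ∈ EC ↔ e ∈ E ∧ ∀ v ∈ e, v ∈ C := by
    intro e
    rw [hEC', mem_ein]
  have hECl : ∀ e ∈ EC, ¬ e.IsDiag := fun e he => hl e ((hmemEC e).mp he).1
  have hout : ∀ e, e ∈ E \ ein E C ↔ e ∈ (outside G C).edgeSet := by
    intro e
    unfold outside
    rw [SimpleGraph.edgeSet_deleteEdges, Set.mem_sdiff, mem_sdiff, hE, mem_ein, hE,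
      Set.mem_setOf_eq]
    tauto
  have hloc : ∀ v, localMean G C v = (sh E C v : ℚ) / (wh E C v : ℚ) := by
    intro v
    unfold localMean localCount sh wh
    rw [loc_count (outside G C) (E \ ein E C) hout v,
      loc_order (outside G C) (E \ ein E C) hout v]
  have hnum : ∀ v, localNumber G C v = (wh E C v : ℚ) := by
    intro v
    unfold localNumber localCount wh
    rw [loc_count (outside G C) (E \ ein E C) hout v]
  have hd : ∀ v ∈ C, 2 ≤ (EC.filter (fun e => v ∈ e)).card := by
    intro v hv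
    have hne2 : ∃ w ∈ C, w ≠ v := by
      obtain ⟨e, he⟩ := hC.ne
      obtain ⟨he1, he2⟩ := mem_ein.mp he
      induction e using Sym2.ind with
      | _ a b =>
        by_cases hav : a = v
        · refine ⟨b, he2 b (Sym2.mem_mk_right a b), ?_⟩
          rintro rfl
          apply hl _ he1
          rw [hav]
          exact Sym2.mk_isDiag_iff.mpr rfl
        · exact ⟨a, he2 a (Sym2.mem_mk_left a b), hav⟩
    obtain ⟨w', hw', hw'v⟩ := hne2
    have hsne : ({v} : Finset V) ≠ C := by
      intro h1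
      rw [← h1, mem_singleton] at hw'
      exact hw'v hw'
    obtain ⟨u, hu, w, hwC, _, he⟩ := hcC {v} (singleton_subset_iff.mpr hv) (singleton_nonempty v) hsne
    rw [mem_singleton] at hu
    subst hu
    rw [← hEC'] at he
    obtain ⟨u', hu', x, _, _, hux⟩ := hbC _ (by rw [← hEC']; exact he) {u}
      (singleton_subset_iff.mpr hv) (singleton_nonempty u) hsne
    rw [mem_singleton] at hu'
    subst hu'
    rw [mem_erase, ← hEC'] at hux
    have h2 : ({s(u', x), s(u', w)} : Finset (Sym2 V)) ⊆ EC.filter (fun e => u' ∈ e) := by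
      intro c hc
      rw [mem_insert, mem_singleton] at hc
      rcases hc with rfl | rfl
      · exact mem_filter.mpr ⟨hux.2, Sym2.mem_mk_left _ _⟩
      · exact mem_filter.mpr ⟨he, Sym2.mem_mk_left _ _⟩
    have h3 := card_le_card h2
    rw [card_pair hux.1] at h3
    exact h3
  have hcC' : Cn EC C := by rw [hEC']; exact hcC
  have hbC'' : ∀ e ∈ EC, Cn (EC.erase e) C := by rw [hEC']; exact hbC
  have hnbr : ∀ v ∈ C, degreeIn G C v = (EC.filter (fun e => v ∈ e)).card := by
    intro v hv
    unfold degreeIn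
    rw [← Fintype.card_coe, ← Nat.card_eq_fintype_card]
    apply Nat.card_congr
    refine Equiv.ofBijective (fun u => ⟨s(v, u.1), mem_filter.mpr
      ⟨(hmemEC _).mpr ⟨(hE _).mpr (G.mem_edgeSet.mpr u.2.2), ?_⟩, Sym2.mem_mk_left v u.1⟩⟩) ⟨?_, ?_⟩
    · intro x hx
      rw [Sym2.mem_iff] at hx
      rcases hx with rfl | rfl
      · exact hv
      · exact u.2.1
    · intro c d hcd
      simp only [Subtype.mk.injEq] at hcd
      exact Subtype.ext (Sym2.congr_right.mp hcd)
    · rintro ⟨e, he⟩
      rw [mem_filter] at he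
      obtain ⟨w, hw⟩ := Sym2.mem_iff_exists.mp he.2
      have hm := (hmemEC e).mp he.1
      refine ⟨⟨w, ?_, ?_⟩, ?_⟩
      · apply hm.2
        rw [hw]
        exact Sym2.mem_mk_right v w
      · rw [← G.mem_edgeSet, ← hw]
        exact (hE _).mp hm.1
      · exact Subtype.ext hw.symm
  have hDw : ∀ v ∈ C, Nx C (ein E C) v (weight G C v) ∧ 1 ≤ weight G C v := by
    intro v hv
    rw [← hEC']
    unfold weight
    by_cases hcut : (G.induce {x | x ∈ C ∧ x ≠ v}).Connected
    · rw [if_pos hcut, hnbr v hv]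
      refine ⟨Nx_deg hECC hECl ?_, by have := hd v hv; omega⟩
      apply cn_of_reach
      · intro e he x hx
        rw [mem_filter] at he
        rw [mem_erase]
        refine ⟨?_, hECC e he.1 x hx⟩
        rintro rfl
        exact he.2 hx
      · intro c hc d hd'
        rw [mem_erase] at hc hd'
        have h1 := hcut.preconnected ⟨c, hc.2, hc.1⟩ ⟨d, hd'.2, hd'.1⟩
        refine h1.map (f := ⟨Subtype.val, ?_⟩)
        rintro ⟨x, hx1, hx2⟩ ⟨y, hy1, hy2⟩ hxy
        have hxy' : G.Adj x y := hxy
        rw [SimpleGraph.fromEdgeSet_adj, mem_coe, mem_filter]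
        refine ⟨⟨(hmemEC _).mpr ⟨(hE _).mpr (G.mem_edgeSet.mpr hxy'), ?_⟩, ?_⟩, hxy'.ne⟩
        · intro z hz
          rw [Sym2.mem_iff] at hz
          rcases hz with rfl | rfl
          · exact hx1
          · exact hy1
        · rw [Sym2.mem_iff]
          rintro (h3 | h3)
          · exact hx2 h3.symm
          · exact hy2 h3.symm
    · rw [if_neg hcut]
      exact ⟨Nx_two hECC hcC' hbC'' hv, by norm_num⟩
  have hfin : ∃ e ∈ EC, 0 < cov E e := by
    obtain ⟨M, hM1, hMa, hcrit⟩ := hgood
    have hMC : ∀ v ∈ C, M ≤ (sh E C v : ℚ) / (wh E C v : ℚ) := by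
      intro v hv
      rw [← hloc v]
      exact hMa v hv
    have hcst : ∀ v, cost G C M v =
        ((sh E C v : ℚ) / (wh E C v : ℚ) - M) / ((wh E C v : ℚ) * weight G C v) := by
      intro v
      unfold cost
      rw [hloc v, hnum v]
    rw [hEC']
    rcases hcrit with h | h | h
    · -- small total cost
      refine cov_MX hl hcn hC hlo hM1 hMC (D := weight G C) hDw ?_
      intro T _
      refine le_trans ?_ h
      simp only [hcst]
      apply sum_le_sum_of_subset_of_nonneg
      · exact filter_subset _ _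
      · intro v hv _
        have := hMC v hv
        apply div_nonneg (by linarith)
        positivity
    · -- small costs
      refine cov_MS hl hcn hC hlo hM1 hMC (D := weight G C) hDw ?_
      intro v hv
      rw [← hcst v]
      exact h v hv
    · -- few cycles
      have hcardE : Nat.card {e // e ∈ G.edgeSet ∧ ∀ v ∈ e, v ∈ C} = EC.card := by
        apply Nat.subtype_card
        intro e
        rw [hmemEC, hE]
      rw [hcardE] at h
      refine cov_MX hl hcn hC hlo hM1 hMC (D := fun _ => 2) ?_ ?_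
      · intro v hv
        rw [← hEC']
        exact ⟨Nx_two hECC hcC' hbC'' hv, by norm_num⟩
      · intro T hT
        rw [← hEC'] at hT
        have h1 := leaves hECC hECl hd hT
        have h5 : ((C.filter (fun v => Lf T v)).card : ℚ) + 2 * (C.card : ℚ) ≤ 2 + 2 * (EC.card : ℚ) := by
          exact_mod_cast h1
        have h6 : ∀ v ∈ C.filter (fun v => Lf T v),
            ((sh E C v : ℚ) / (wh E C v : ℚ) - M) / ((wh E C v : ℚ) * ((2 : ℕ) : ℚ)) ≤ 1 / 4 := by
          intro v _
          have h7 : 2 * (sh E C v : ℚ) ≤ wh E C v * (wh E C v + 1) := by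
            have := two_sr (E \ ein E C) univ v
            unfold sh wh
            exact_mod_cast this
          have h8 : (1 : ℚ) ≤ wh E C v := by
            exact_mod_cast wh_one E C v
          rw [div_le_iff₀ (by positivity)]
          have h9 : (sh E C v : ℚ) / (wh E C v : ℚ) ≤ wh E C v / 2 + 1 := by
            rw [div_le_iff₀ (by linarith)]
            nlinarith
          push_cast
          linarith
        have h10 := sum_le_sum h6
        rw [sum_const, nsmul_eq_mul] at h10
        refine h10.trans ?_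
        linarith
  obtain ⟨e, he, hpos⟩ := hfin
  have hee := (hnb e).mp (hECnb e he)
  refine ⟨e, hee.1, hee.2, ?_⟩
  have h1 := diff_eq G E hE e
  have h2 : 0 < cov E e / (cntN E * cntN (E.erase e)) :=
    div_pos hpos (mul_pos (cntN_pos E) (cntN_pos (E.erase e)))
  linarith

end aux

/-- Let `G` be a finite connected graph which is not a tree (some edge `e` has `G ∖ e` connected).
If every core `K` of `G` is good, or has only good blocks (maximal 2-connected sets inside `K`), then
some edge `e` has `G ∖ e` connected and `μ(G ∖ e) < μ(G)`. -/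
theorem result {V : Type*} [Fintype V] (G : SimpleGraph V) (hG : G.Connected)
    (hne : ∃ e ∈ G.edgeSet, (G.deleteEdges {e}).Connected)
    (h : ∀ K : Finset V, IsCore G K → Good G K ∨ ∀ C ⊆ K, IsBlock G C → Good G C) :
    ∃ e ∈ G.edgeSet, (G.deleteEdges {e}).Connected ∧
      meanSubtreeOrder (G.deleteEdges {e}) < meanSubtreeOrder G := by
  classical
  exact main G hG hne h

end Pool.Agent.Results.MP_d417b4_co.CostCriterion
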