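import Mathlib
import Pool.Agent.LibMST.All

set_option autoImplicit false

namespace Pool.Agent.Results.MP_d417b4_co.EdgeAdditionFails

open Finset Pool.Agent.LibMST

/-- The number of subtrees of `G` with exactly `k` vertices: a subtree is a subgraph (not
necessarily induced) that is a tree. -/
noncomputable def subtreeCount {V : Type*} (G : SimpleGraph V) (k : ℕ) : ℕ :=
  Nat.card {H : G.Subgraph // H.coe.IsTree ∧ Nat.card H.verts = k}

/-- The mean subtree order of `G`: the sum of `k * s_k(G)` over `1 ≤ k ≤ |V|`, divided by the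
sum of `s_k(G)` over `1 ≤ k ≤ |V|`, where `s_k(G)` is the number of subtrees with `k` vertices. -/
noncomputable def meanSubtreeOrder {V : Type*} [Fintype V] (G : SimpleGraph V) : ℚ :=
  (∑ k ∈ Finset.Icc 1 (Fintype.card V), (k : ℚ) * (subtreeCount G k : ℚ)) /
    (∑ k ∈ Finset.Icc 1 (Fintype.card V), (subtreeCount G k : ℚ))

theorem mean_eq {V : Type*} [Fintype V] [DecidableEq V] (G : SimpleGraph V)
    (E : Finset (Sym2 V)) (hE : ∀ e, e ∈ E ↔ e ∈ G.edgeSet) :
    meanSubtreeOrder G = ((∑ p ∈ TP E, p.1.card : ℕ) : ℚ) / ((TP E).card : ℚ) := by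
  classical
  unfold meanSubtreeOrder subtreeCount
  simp only [card_subtrees G E hE]
  rw [← sum_order E]
  conv_rhs => rw [← sum_count E]
  push_cast
  rfl

/-- There is a connected graph on fifteen vertices, not complete, such that adding any missing
edge lowers the mean subtree order. -/
theorem result : ∃ G : SimpleGraph (Fin 15), G.Connected ∧ G ≠ ⊤ ∧
    ∀ u v : Fin 15, u ≠ v → ¬ G.Adj u v →
      meanSubtreeOrder (G ⊔ SimpleGraph.edge u v) < meanSubtreeOrder G := by
  refine ⟨GG, GG_connected, GG_ne_top, ?_⟩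
  intro u v huv hadj
  have hadj' : ¬ adjP u v := hadj
  have hgood := good_all u v huv hadj'
  have hne : s(u, v) ∉ EE := by rw [mk_mem_EE]; exact hadj'
  have hE' : ∀ e, e ∈ insert s(u, v) EE ↔ e ∈ (GG ⊔ SimpleGraph.edge u v).edgeSet := by
    intro e
    rw [mem_insert, mem_EE, SimpleGraph.edgeSet_sup, SimpleGraph.edgeSet_edge_of_ne huv,
      Set.mem_union, Set.mem_singleton_iff, or_comm]
  rw [mean_eq _ _ hE', mean_eq GG EE mem_EE]
  have h1 := sum_insert_edge EE s(u, v) hne (fun k => k)
  have h2 := sum_insert_edge EE s(u, v) hne (fun _ => 1)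
  rw [← Finset.card_eq_sum_ones, ← Finset.card_eq_sum_ones, ← Finset.card_eq_sum_ones] at h2
  rw [h1, h2]
  unfold Good at hgood
  have hN : 0 < (TP EE).card := by rw [total_count]; norm_num
  rw [div_lt_div_iff₀ (by exact_mod_cast (by omega : 0 < (TP EE).card + (TE EE s(u, v)).card))
    (by exact_mod_cast hN)]
  have : (∑ p ∈ TP EE, p.1.card + ∑ p ∈ TE EE s(u, v), p.1.card) * (TP EE).card <
      (∑ p ∈ TP EE, p.1.card) * ((TP EE).card + (TE EE s(u, v)).card) := by
    rw [add_mul, mul_add]
    exact Nat.add_lt_add_left hgood _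
  exact_mod_cast this

end Pool.Agent.Results.MP_d417b4_co.EdgeAdditionFails
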