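import Mathlib
import Pool.Agent.LibMSB.Core
import Pool.Agent.LibHM54.Up

set_option autoImplicit false

namespace Pool.Agent.Results.MP_d417b4_co.HalfMean

open Finset Pool.Agent.LibMST Pool.Agent.LibMSB Pool.Agent.LibOC52 Pool.Agent.LibHM54

/-- The number of subtrees of `G` with exactly `k` vertices: a subtree is a subgraph (not
necessarily induced) that is a tree. -/
noncomputable def subtreeCount {V : Type*} (G : SimpleGraph V) (k : ℕ) : ℕ :=
  Nat.card {H : G.Subgraph // H.coe.IsTree ∧ Nat.card H.verts = k}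

/-- The number of all subtrees of `G`. -/
noncomputable def subtreeTotal {V : Type*} [Fintype V] (G : SimpleGraph V) : ℕ :=
  ∑ k ∈ Finset.Icc 1 (Fintype.card V), subtreeCount G k

/-- The mean subtree order of `G`: the sum of `k * s_k(G)` over `1 ≤ k ≤ |V|`, divided by the
sum of `s_k(G)` over `1 ≤ k ≤ |V|`, where `s_k(G)` is the number of subtrees with `k` vertices. -/
noncomputable def meanSubtreeOrder {V : Type*} [Fintype V] (G : SimpleGraph V) : ℚ :=
  (∑ k ∈ Finset.Icc 1 (Fintype.card V), (k : ℚ) * (subtreeCount G k : ℚ)) /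
    (∑ k ∈ Finset.Icc 1 (Fintype.card V), (subtreeCount G k : ℚ))

section aux

variable {V : Type*} [Fintype V] [DecidableEq V]

private theorem count_eq (G : SimpleGraph V) (E : Finset (Sym2 V))
    (hE : ∀ e, e ∈ E ↔ e ∈ G.edgeSet) :
    (∑ k ∈ Finset.Icc 1 (Fintype.card V), (subtreeCount G k : ℚ)) = cntN E := by
  classical
  unfold subtreeCount cntN
  simp only [card_subtrees G E hE]
  rw [← sum_count E]
  push_cast
  rfl

private theorem total_eq (G : SimpleGraph V) (E : Finset (Sym2 V))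
    (hE : ∀ e, e ∈ E ↔ e ∈ G.edgeSet) : (subtreeTotal G : ℚ) = cntN E := by
  rw [← count_eq G E hE]
  unfold subtreeTotal
  push_cast
  rfl

private theorem mean_eq (G : SimpleGraph V) (E : Finset (Sym2 V))
    (hE : ∀ e, e ∈ E ↔ e ∈ G.edgeSet) :
    meanSubtreeOrder G = cntA E / cntN E := by
  classical
  unfold meanSubtreeOrder
  rw [count_eq G E hE]
  congr 1
  unfold subtreeCount cntA ord
  simp only [card_subtrees G E hE]
  have h := sum_order E
  have h2 : ((∑ k ∈ Finset.Icc 1 (Fintype.card V),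
      k * ((TP E).filter (fun p => p.1.card = k)).card : ℕ) : ℚ) =
      ((∑ p ∈ TP E, p.1.card : ℕ) : ℚ) := by rw [h]
  push_cast at h2
  exact h2

omit [Fintype V] in
private theorem erase_spec (G : SimpleGraph V) (E : Finset (Sym2 V))
    (hE : ∀ e, e ∈ E ↔ e ∈ G.edgeSet) (e : Sym2 V) :
    ∀ a, a ∈ E.erase e ↔ a ∈ (G.deleteEdges {e}).edgeSet := by
  intro a
  rw [mem_erase, SimpleGraph.edgeSet_deleteEdges, Set.mem_sdiff, Set.mem_singleton_iff, hE a,
    and_comm]

private theorem cn_conn {G : SimpleGraph V} (hG : G.Connected) {E : Finset (Sym2 V)}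
    (hE : ∀ e, e ∈ E ↔ e ∈ G.edgeSet) : Cn E (univ : Finset V) := by
  intro U hU hne hneC
  obtain ⟨u, hu⟩ := hne
  obtain ⟨v, hvU⟩ : ∃ v, v ∉ U := by
    by_contra hcon
    push Not at hcon
    exact hneC (Finset.eq_univ_of_forall hcon)
  obtain ⟨p⟩ := hG.preconnected u v
  obtain ⟨d, _, h1, h2⟩ := p.exists_boundary_dart (U : Set V) (by exact_mod_cast hu)
    (by exact_mod_cast hvU)
  exact ⟨d.fst, by exact_mod_cast h1, d.snd, mem_univ _, by exact_mod_cast h2, (hE _).mpr d.adj⟩

/-- The convexity inequality. -/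
private theorem conv (G : SimpleGraph V) (hG : G.Connected) (e : Sym2 V) (he : e ∈ G.edgeSet) :
    subtreeTotal (G.deleteEdges {e}) < subtreeTotal G ∧ 0 < subtreeTotal (G.deleteEdges {e}) ∧
    (subtreeTotal (G.deleteEdges {e}) : ℚ) * meanSubtreeOrder (G.deleteEdges {e}) +
      ((subtreeTotal G : ℚ) - subtreeTotal (G.deleteEdges {e})) * (((Fintype.card V : ℚ) + 2) / 2) ≤
      (subtreeTotal G : ℚ) * meanSubtreeOrder G := by
  classical
  have : Nonempty V := hG.nonempty
  obtain ⟨E, hE'⟩ : ∃ E : Finset (Sym2 V), E = univ.filter (fun e => e ∈ G.edgeSet) := ⟨_, rfl⟩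
  have hE : ∀ e, e ∈ E ↔ e ∈ G.edgeSet := by
    intro e
    rw [hE', mem_filter]
    simp
  have hd : ¬ e.IsDiag := SimpleGraph.not_isDiag_of_mem_edgeSet G he
  have h1 := half_edge (cn_conn hG hE) ((hE e).mpr he) hd
  have h2 := cntNe_pos ((hE e).mpr he) hd
  have t1 := total_eq G E hE
  have t2 := total_eq _ _ (erase_spec G E hE e)
  have m1 := mean_eq G E hE
  have m2 := mean_eq _ _ (erase_spec G E hE e)
  have n1 := cntN_pos E
  have n2 := cntN_pos (E.erase e)
  have c1 := cntN_erase E e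
  have c2 := cntA_erase E e
  refine ⟨?_, ?_, ?_⟩
  · have h3 : (subtreeTotal (G.deleteEdges {e}) : ℚ) < subtreeTotal G := by
      rw [t1, t2, c1]
      linarith
    exact_mod_cast h3
  · have h3 : (0 : ℚ) < subtreeTotal (G.deleteEdges {e}) := by
      rw [t2]
      exact n2
    exact_mod_cast h3
  · rw [m1, m2, t1, t2]
    have e1 : cntN E * (cntA E / cntN E) = cntA E := by field_simp
    have e2 : cntN (E.erase e) * (cntA (E.erase e) / cntN (E.erase e)) = cntA (E.erase e) := by
      field_simp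
    rw [e1, e2, c1, c2]
    linarith

end aux

/-- Let `G` be a finite connected graph of order `n`.
(1) For every edge `e` of `G`: `G ∖ e` has fewer subtrees than `G` and
`N(G) μ(G) ≥ N(G ∖ e) μ(G ∖ e) + (N(G) - N(G ∖ e)) (n + 2) / 2`, where `N` is the number of subtrees
(so the subtrees which contain `e` have mean order at least `(n + 2) / 2`).
(2) For all non-adjacent `u ≠ v`, `μ(G + uv) ≥ min (μ(G), (n + 2) / 2)`.
(3) For every edge `e` of `G`, if `μ(G) < (n + 2) / 2` or `μ(G ∖ e) < (n + 2) / 2` then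
`μ(G ∖ e) < μ(G)`.
(4) For all non-adjacent `u ≠ v`, if `μ(G) < (n + 2) / 2` or `μ(G + uv) < (n + 2) / 2` then
`μ(G + uv) > μ(G)`. -/
theorem result {V : Type*} [Fintype V] (G : SimpleGraph V) (hG : G.Connected) :
    (∀ e ∈ G.edgeSet, subtreeTotal (G.deleteEdges {e}) < subtreeTotal G ∧
      (subtreeTotal (G.deleteEdges {e}) : ℚ) * meanSubtreeOrder (G.deleteEdges {e}) +
        ((subtreeTotal G : ℚ) - subtreeTotal (G.deleteEdges {e})) *
          (((Fintype.card V : ℚ) + 2) / 2) ≤ (subtreeTotal G : ℚ) * meanSubtreeOrder G) ∧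
    (∀ u v, u ≠ v → ¬ G.Adj u v →
      min (meanSubtreeOrder G) (((Fintype.card V : ℚ) + 2) / 2) ≤
        meanSubtreeOrder (G ⊔ SimpleGraph.edge u v)) ∧
    (∀ e ∈ G.edgeSet, (meanSubtreeOrder G < ((Fintype.card V : ℚ) + 2) / 2 ∨
        meanSubtreeOrder (G.deleteEdges {e}) < ((Fintype.card V : ℚ) + 2) / 2) →
      meanSubtreeOrder (G.deleteEdges {e}) < meanSubtreeOrder G) ∧
    (∀ u v, u ≠ v → ¬ G.Adj u v → (meanSubtreeOrder G < ((Fintype.card V : ℚ) + 2) / 2 ∨
        meanSubtreeOrder (G ⊔ SimpleGraph.edge u v) < ((Fintype.card V : ℚ) + 2) / 2) →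
      meanSubtreeOrder G < meanSubtreeOrder (G ⊔ SimpleGraph.edge u v)) := by
  classical
  have hlt : ∀ N N' m m' c : ℚ, 0 < N' → N' < N → N' * m' + (N - N') * c ≤ N * m →
      (m < c ∨ m' < c) → m' < m := by
    intro N N' m m' c h0 h1 h2 h3
    rcases h3 with h3 | h3
    · have b2 := mul_lt_mul_of_pos_left h3 (sub_pos.mpr h1)
      have b3 : N' * m' < N' * m := by linarith
      exact lt_of_mul_lt_mul_left b3 h0.le
    · have b2 := mul_lt_mul_of_pos_left h3 (sub_pos.mpr h1)
      have b3 : N * m' < N * m := by linarith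
      exact lt_of_mul_lt_mul_left b3 (h0.trans h1).le
  have hadd : ∀ u v, u ≠ v → ¬ G.Adj u v →
      subtreeTotal G < subtreeTotal (G ⊔ SimpleGraph.edge u v) ∧ 0 < subtreeTotal G ∧
      (subtreeTotal G : ℚ) * meanSubtreeOrder G +
        ((subtreeTotal (G ⊔ SimpleGraph.edge u v) : ℚ) - subtreeTotal G) *
          (((Fintype.card V : ℚ) + 2) / 2) ≤
        (subtreeTotal (G ⊔ SimpleGraph.edge u v) : ℚ) *
          meanSubtreeOrder (G ⊔ SimpleGraph.edge u v) := by
    intro u v huv hadj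
    have h1 : (G ⊔ SimpleGraph.edge u v).Connected := hG.mono le_sup_left
    have h2 : s(u, v) ∈ (G ⊔ SimpleGraph.edge u v).edgeSet := by
      rw [SimpleGraph.edgeSet_sup, SimpleGraph.edgeSet_edge_of_ne huv]
      exact Or.inr rfl
    have h3 : (G ⊔ SimpleGraph.edge u v).deleteEdges {s(u, v)} = G := by
      rw [← SimpleGraph.edgeSet_inj, SimpleGraph.edgeSet_deleteEdges, SimpleGraph.edgeSet_sup,
        SimpleGraph.edgeSet_edge_of_ne huv]
      ext a
      simp only [Set.mem_sdiff, Set.mem_union, Set.mem_singleton_iff]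
      constructor
      · rintro ⟨h4 | h4, h5⟩
        · exact h4
        · exact absurd h4 h5
      · intro h4
        refine ⟨Or.inl h4, ?_⟩
        rintro rfl
        exact hadj h4
    have h4 := conv _ h1 _ h2
    rw [h3] at h4
    exact h4
  refine ⟨fun e he => ⟨(conv G hG e he).1, (conv G hG e he).2.2⟩, ?_, ?_, ?_⟩
  · intro u v huv hadj
    obtain ⟨h1, h2, h3⟩ := hadd u v huv hadj
    have h1' : (subtreeTotal G : ℚ) < subtreeTotal (G ⊔ SimpleGraph.edge u v) := by exact_mod_cast h1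
    have h2' : (0 : ℚ) < subtreeTotal G := by exact_mod_cast h2
    have a1 := min_le_left (meanSubtreeOrder G) (((Fintype.card V : ℚ) + 2) / 2)
    have a2 := min_le_right (meanSubtreeOrder G) (((Fintype.card V : ℚ) + 2) / 2)
    have b1 := mul_le_mul_of_nonneg_left a1 h2'.le
    have b2 := mul_le_mul_of_nonneg_left a2 (sub_nonneg.mpr h1'.le)
    have b3 : (subtreeTotal (G ⊔ SimpleGraph.edge u v) : ℚ) *
        min (meanSubtreeOrder G) (((Fintype.card V : ℚ) + 2) / 2) ≤
        (subtreeTotal (G ⊔ SimpleGraph.edge u v) : ℚ) *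
          meanSubtreeOrder (G ⊔ SimpleGraph.edge u v) := by linarith
    exact le_of_mul_le_mul_left b3 (h2'.trans h1')
  · intro e he hmu
    obtain ⟨h1, h2, h3⟩ := conv G hG e he
    exact hlt _ _ _ _ _ (by exact_mod_cast h2) (by exact_mod_cast h1) h3 hmu
  · intro u v huv hadj hmu
    obtain ⟨h1, h2, h3⟩ := hadd u v huv hadj
    exact hlt _ _ _ _ _ (by exact_mod_cast h2) (by exact_mod_cast h1) h3 hmu.symm

end Pool.Agent.Results.MP_d417b4_co.HalfMean
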